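import Mathlib

/-!
# `S^6(u)` need not be rich for a Sturmian word `u` (MP_9b64ae)

The Sturmian word `u` of slope `√2 - 1` and intercept `1/6` starts with `001010100101001`, so that
`S^6(u)` starts with `101100101`, a word of length 9 with only 9 palindromic factors.
-/

namespace Pool.Agent.Results.MP_9b64ae_co.NotRich

/-- The factor of length `l` of the infinite word `u` starting at index `i`. -/
def factor (u : ℕ → ℕ) (i l : ℕ) : List ℕ := (List.range l).map fun j => u (i + j)

/-- A Sturmian word: an infinite word over `{0,1}` having exactly `n + 1` distinct factors of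
length `n`, for every `n`. -/
def Sturmian (u : ℕ → ℕ) : Prop :=
  (∀ n, u n ≤ 1) ∧ ∀ n, (Set.range fun i => factor u i n).ncard = n + 1

/-- The operation `S` (sum modulo 2 of consecutive letters). -/
def S (u : ℕ → ℕ) : ℕ → ℕ := fun n => (u n + u (n + 1)) % 2

/-- A finite word is rich (has defect `0`) if it has exactly `|w| + 1` distinct palindromic
factors, the empty word included. -/
def RichWord (w : List ℕ) : Prop :=
  {v : List ℕ | v <:+: w ∧ v.reverse = v}.ncard = w.length + 1

/-- An infinite word is rich if all its finite factors are rich. -/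
def Rich (u : ℕ → ℕ) : Prop := ∀ i l : ℕ, RichWord (factor u i l)

/-! ### Density of the orbit of an irrational rotation -/

theorem dense_orbit {α : ℝ} (hα : Irrational α) (ρ : ℝ) {a b : ℝ} (ha : 0 ≤ a) (hab : a < b)
    (hb : b ≤ 1) : ∃ m : ℕ, a < Int.fract (m * α + ρ) ∧ Int.fract (m * α + ρ) < b := by
  obtain ⟨n, hn⟩ := exists_nat_one_div_lt (sub_pos.2 hab)
  obtain ⟨p, q, hq, -, hpq⟩ := Real.exists_int_int_abs_mul_sub_le α (n := n + 1) (by omega)
  set δ : ℝ := (q : ℝ) * α - p with hδ
  have hδ0 : δ ≠ 0 := by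
    intro h
    have hqr : (q : ℝ) ≠ 0 := by exact_mod_cast hq.ne'
    apply hα
    refine ⟨(p : ℚ) / q, ?_⟩
    push_cast
    rw [div_eq_iff hqr]
    linarith
  have hδlt : |δ| < b - a := by
    refine lt_of_le_of_lt hpq ?_
    refine lt_of_le_of_lt ?_ hn
    push_cast
    apply one_div_le_one_div_of_le
    · positivity
    · linarith
  -- it suffices to find a natural number `s` and an integer `N` with `ρ + s δ` in `(a+N, b+N)`
  have key : ∀ (s : ℕ) (N : ℤ), a + N < ρ + s * δ → ρ + s * δ < b + N →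
      ∃ m : ℕ, a < Int.fract (m * α + ρ) ∧ Int.fract (m * α + ρ) < b := by
    intro s N h1 h2
    refine ⟨s * q.toNat, ?_⟩
    have hqn : ((q.toNat : ℕ) : ℝ) = q := by
      have : ((q.toNat : ℕ) : ℤ) = q := Int.toNat_of_nonneg hq.le
      exact_mod_cast this
    have hf : Int.fract (((s * q.toNat : ℕ) : ℝ) * α + ρ) = ρ + s * δ - N := by
      rw [Int.fract_eq_iff]
      refine ⟨by linarith, by linarith, s * p + N, ?_⟩
      push_cast
      rw [hqn, hδ]
      ring
    rw [hf]
    constructor <;> linarith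
  rcases lt_or_gt_of_ne hδ0 with hneg | hpos
  · -- negative step
    obtain ⟨N, hN⟩ : ∃ N : ℤ, b + N ≤ ρ := ⟨⌊ρ - b⌋, by have := Int.floor_le (ρ - b); linarith⟩
    have hd : 0 < -δ := by linarith
    set s : ℕ := ⌊(ρ - (b + N)) / (-δ)⌋₊ + 1 with hs
    have hnn : 0 ≤ (ρ - (b + N)) / (-δ) := div_nonneg (by linarith) hd.le
    have h1 : (ρ - (b + N)) / (-δ) < s := by
      rw [hs]; push_cast; exact Nat.lt_floor_add_one _
    have h2 : (s : ℝ) ≤ (ρ - (b + N)) / (-δ) + 1 := by
      rw [hs]; push_cast; linarith [Nat.floor_le hnn]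
    rw [div_lt_iff₀ hd] at h1
    have h3 : (s : ℝ) * (-δ) ≤ (ρ - (b + N)) + (-δ) := by
      calc (s : ℝ) * (-δ) ≤ ((ρ - (b + N)) / (-δ) + 1) * (-δ) :=
            mul_le_mul_of_nonneg_right h2 hd.le
        _ = (ρ - (b + N)) + (-δ) := by
            rw [add_mul, div_mul_cancel₀ _ hd.ne', one_mul]
    have habs : |δ| = -δ := abs_of_neg hneg
    exact key s N (by linarith) (by linarith)
  · obtain ⟨N, hN⟩ : ∃ N : ℤ, ρ ≤ a + N := ⟨⌈ρ - a⌉, by have := Int.le_ceil (ρ - a); linarith⟩
    set s : ℕ := ⌊((a + N) - ρ) / δ⌋₊ + 1 with hs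
    have hnn : 0 ≤ ((a + N) - ρ) / δ := div_nonneg (by linarith) hpos.le
    have h1 : ((a + N) - ρ) / δ < s := by
      rw [hs]; push_cast; exact Nat.lt_floor_add_one _
    have h2 : (s : ℝ) ≤ ((a + N) - ρ) / δ + 1 := by
      rw [hs]; push_cast; linarith [Nat.floor_le hnn]
    rw [div_lt_iff₀ hpos] at h1
    have h3 : (s : ℝ) * δ ≤ ((a + N) - ρ) + δ := by
      calc (s : ℝ) * δ ≤ (((a + N) - ρ) / δ + 1) * δ :=
            mul_le_mul_of_nonneg_right h2 hpos.le
        _ = ((a + N) - ρ) + δ := by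
            rw [add_mul, div_mul_cancel₀ _ hpos.ne', one_mul]
    have habs : |δ| = δ := abs_of_pos hpos
    exact key s N (by linarith) (by linarith)

/-! ### Mechanical words are Sturmian -/

/-- The mechanical word of slope `α` and intercept `ρ`. -/
noncomputable def mech (α ρ : ℝ) : ℕ → ℕ :=
  fun n => (⌊((n + 1 : ℕ) : ℝ) * α + ρ⌋ - ⌊(n : ℝ) * α + ρ⌋).toNat

theorem mech_cast {α ρ : ℝ} (h0 : 0 < α) (n : ℕ) :
    (mech α ρ n : ℤ) = ⌊((n + 1 : ℕ) : ℝ) * α + ρ⌋ - ⌊(n : ℝ) * α + ρ⌋ := by
  unfold mech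
  apply Int.toNat_of_nonneg
  rw [sub_nonneg]
  apply Int.floor_le_floor
  push_cast
  linarith

theorem mech_le_one {α ρ : ℝ} (h0 : 0 < α) (h1 : α < 1) (n : ℕ) : mech α ρ n ≤ 1 := by
  have h := mech_cast (ρ := ρ) h0 n
  have h2 : ⌊((n + 1 : ℕ) : ℝ) * α + ρ⌋ < ⌊(n : ℝ) * α + ρ⌋ + 2 := by
    rw [Int.floor_lt]
    push_cast
    have := Int.lt_floor_add_one ((n : ℝ) * α + ρ)
    linarith
  omega

/-- Partial sums of the letters. -/
theorem mech_sum {α ρ : ℝ} (h0 : 0 < α) (m i : ℕ) :
    ((∑ j ∈ Finset.range i, mech α ρ (m + j) : ℕ) : ℤ) =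
      ⌊((m + i : ℕ) : ℝ) * α + ρ⌋ - ⌊(m : ℝ) * α + ρ⌋ := by
  induction i with
  | zero => simp
  | succ i ih =>
    rw [Finset.sum_range_succ]
    push_cast at ih ⊢
    rw [ih, mech_cast h0]
    push_cast
    ring_nf

/-- Phase of the orbit. -/
noncomputable def ph (α ρ : ℝ) (m : ℕ) : ℝ := Int.fract ((m : ℝ) * α + ρ)

theorem floor_split {x y : ℝ} (hx0 : 0 ≤ x) (hx1 : x < 1) :
    ⌊x + y⌋ = ⌊y⌋ + (if 1 - Int.fract y ≤ x then 1 else 0) := by
  have hy := Int.floor_add_fract y
  have hf0 := Int.fract_nonneg y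
  have hf1 := Int.fract_lt_one y
  split_ifs with h
  · rw [Int.floor_eq_iff]
    push_cast
    constructor <;> linarith
  · rw [Int.floor_eq_iff]
    push_cast
    push Not at h
    constructor <;> linarith

theorem mech_sum_ph {α ρ : ℝ} (h0 : 0 < α) (m i : ℕ) :
    ((∑ j ∈ Finset.range i, mech α ρ (m + j) : ℕ) : ℤ) =
      ⌊(i : ℝ) * α⌋ + (if 1 - Int.fract ((i : ℝ) * α) ≤ ph α ρ m then 1 else 0) := by
  have hfs := floor_split (x := ph α ρ m) (y := (i : ℝ) * α) (Int.fract_nonneg _)
    (Int.fract_lt_one _)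
  rw [mech_sum h0, ← hfs]
  have : ((m + i : ℕ) : ℝ) * α + ρ =
      (⌊(m : ℝ) * α + ρ⌋ : ℝ) + (ph α ρ m + (i : ℝ) * α) := by
    have := Int.floor_add_fract ((m : ℝ) * α + ρ)
    unfold ph
    push_cast
    linarith
  rw [this, Int.floor_intCast_add]
  unfold ph
  ring

/-- The thresholds not larger than the phase. -/
noncomputable def thr (α ρ : ℝ) (n m : ℕ) : Finset ℕ :=
  (Finset.Icc 1 n).filter fun i => 1 - Int.fract ((i : ℝ) * α) ≤ ph α ρ m

theorem factor_eq_iff (u : ℕ → ℕ) (m m' n : ℕ) :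
    factor u m n = factor u m' n ↔ ∀ j < n, u (m + j) = u (m' + j) := by
  unfold factor
  simp [List.map_inj_left]

theorem factor_iff_thr {α ρ : ℝ} (h0 : 0 < α) (m m' n : ℕ) :
    factor (mech α ρ) m n = factor (mech α ρ) m' n ↔ thr α ρ n m = thr α ρ n m' := by
  rw [factor_eq_iff]
  constructor
  · intro h
    have hs : ∀ i ≤ n, ((∑ j ∈ Finset.range i, mech α ρ (m + j) : ℕ) : ℤ) =
        ((∑ j ∈ Finset.range i, mech α ρ (m' + j) : ℕ) : ℤ) := by
      intro i hi
      congr 1
      apply Finset.sum_congr rfl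
      intro j hj
      exact h j (lt_of_lt_of_le (Finset.mem_range.1 hj) hi)
    ext i
    unfold thr
    rw [Finset.mem_filter, Finset.mem_filter, Finset.mem_Icc]
    refine and_congr_right fun hi => ?_
    have := hs i hi.2
    rw [mech_sum_ph h0, mech_sum_ph h0] at this
    by_cases h1 : 1 - Int.fract ((i : ℝ) * α) ≤ ph α ρ m <;>
      by_cases h2 : 1 - Int.fract ((i : ℝ) * α) ≤ ph α ρ m'
    · exact iff_of_true h1 h2
    · rw [if_pos h1, if_neg h2] at this; omega
    · rw [if_neg h1, if_pos h2] at this; omega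
    · exact iff_of_false h1 h2
  · intro h
    have hs : ∀ i ≤ n, (∑ j ∈ Finset.range i, mech α ρ (m + j)) =
        (∑ j ∈ Finset.range i, mech α ρ (m' + j)) := by
      intro i hi
      rcases Nat.eq_zero_or_pos i with rfl | hpos
      · simp
      have hiff : i ∈ thr α ρ n m ↔ i ∈ thr α ρ n m' := by rw [h]
      unfold thr at hiff
      rw [Finset.mem_filter, Finset.mem_filter, Finset.mem_Icc] at hiff
      have hi' : 1 ≤ i ∧ i ≤ n := ⟨hpos, hi⟩
      have e : ((∑ j ∈ Finset.range i, mech α ρ (m + j) : ℕ) : ℤ) =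
          ((∑ j ∈ Finset.range i, mech α ρ (m' + j) : ℕ) : ℤ) := by
        rw [mech_sum_ph h0, mech_sum_ph h0]
        have hiff' : (1 - Int.fract ((i : ℝ) * α) ≤ ph α ρ m) ↔
            (1 - Int.fract ((i : ℝ) * α) ≤ ph α ρ m') :=
          ⟨fun h => (hiff.1 ⟨hi', h⟩).2, fun h => (hiff.2 ⟨hi', h⟩).2⟩
        rw [if_congr hiff' rfl rfl]
      exact_mod_cast e
    intro j hj
    have e1 := hs j hj.le
    have e2 := hs (j + 1) hj
    rw [Finset.sum_range_succ, Finset.sum_range_succ] at e2
    omega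

theorem thr_iff_card {α ρ : ℝ} (m m' n : ℕ) :
    thr α ρ n m = thr α ρ n m' ↔ (thr α ρ n m).card = (thr α ρ n m').card := by
  refine ⟨fun h => by rw [h], fun h => ?_⟩
  rcases le_total (ph α ρ m) (ph α ρ m') with hle | hle
  · apply Finset.eq_of_subset_of_card_le
    · intro i hi
      unfold thr at hi ⊢
      rw [Finset.mem_filter] at hi ⊢
      exact ⟨hi.1, hi.2.trans hle⟩
    · exact h.ge
  · symm
    apply Finset.eq_of_subset_of_card_le
    · intro i hi
      unfold thr at hi ⊢
      rw [Finset.mem_filter] at hi ⊢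
      exact ⟨hi.1, hi.2.trans hle⟩
    · exact h.le

theorem ncard_range_eq {A B : Type} [Inhabited B] (g : ℕ → A) (c : ℕ → B)
    (h : ∀ m m', g m = g m' ↔ c m = c m') : (Set.range g).ncard = (Set.range c).ncard := by
  classical
  let F : A → B := fun v => if h : ∃ m, g m = v then c h.choose else default
  have hF : ∀ m, F (g m) = c m := by
    intro m
    have hex : ∃ m', g m' = g m := ⟨m, rfl⟩
    simp only [F, dif_pos hex]
    exact (h _ _).1 hex.choose_spec
  have himg : Set.range c = F '' Set.range g := by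
    ext b
    constructor
    · rintro ⟨m, rfl⟩
      exact ⟨g m, ⟨m, rfl⟩, hF m⟩
    · rintro ⟨_, ⟨m, rfl⟩, rfl⟩
      exact ⟨m, (hF m).symm⟩
  rw [himg]
  symm
  apply Set.InjOn.ncard_image
  rintro _ ⟨m, rfl⟩ _ ⟨m', rfl⟩ he
  rw [hF, hF] at he
  exact (h _ _).2 he

theorem range_card {α ρ : ℝ} (hα : Irrational α) (n : ℕ) :
    Set.range (fun m => (thr α ρ n m).card) = Set.Iic n := by
  ext k
  simp only [Set.mem_range, Set.mem_Iic]
  constructor
  · rintro ⟨m, rfl⟩
    calc (thr α ρ n m).card ≤ (Finset.Icc 1 n).card := Finset.card_filter_le _ _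
      _ = n := by simp
  · intro hk
    -- the thresholds
    let th : ℕ → ℝ := fun i => 1 - Int.fract ((i : ℝ) * α)
    have hinj : Set.InjOn th (Finset.Icc 1 n : Finset ℕ) := by
      intro i _ j _ hij
      have hf : Int.fract ((i : ℝ) * α) = Int.fract ((j : ℝ) * α) := by
        simp only [th] at hij; linarith
      by_contra hne
      obtain ⟨z, hz⟩ := Int.fract_eq_fract.1 hf
      have hr : ((i : ℤ) - j : ℤ) ≠ 0 := by
        intro h; apply hne; omega
      have hr' : ((i : ℝ) - j) ≠ 0 := by exact_mod_cast hr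
      apply hα
      refine ⟨(z : ℚ) / ((i : ℚ) - j), ?_⟩
      push_cast
      rw [div_eq_iff hr', ← hz]
      ring
    let T : Finset ℝ := (Finset.Icc 1 n).image th
    have hT : T.card = n := by
      rw [Finset.card_image_of_injOn hinj]; simp
    have hT01 : ∀ t ∈ T, 0 < t ∧ t < 1 := by
      intro t ht
      obtain ⟨i, hi, rfl⟩ := Finset.mem_image.1 ht
      rw [Finset.mem_Icc] at hi
      have h1 := Int.fract_lt_one ((i : ℝ) * α)
      have h2 : 0 < Int.fract ((i : ℝ) * α) := by
        rw [Int.fract_pos]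
        intro h
        have hi0 : (i : ℝ) ≠ 0 := by
          have : i ≠ 0 := by omega
          exact_mod_cast this
        apply hα
        refine ⟨(⌊(i : ℝ) * α⌋ : ℚ) / i, ?_⟩
        push_cast
        rw [div_eq_iff hi0, ← h]
        ring
      simp only [th]
      constructor <;> linarith
    let e := T.orderEmbOfFin hT
    have he : ∀ j, 0 < e j ∧ e j < 1 := fun j => hT01 _ (T.orderEmbOfFin_mem hT j)
    -- the card of `thr` in terms of `e`
    have hcard : ∀ m, (thr α ρ n m).card =
        (Finset.univ.filter fun j : Fin n => e j ≤ ph α ρ m).card := by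
      intro m
      have h1 : (thr α ρ n m).card = (T.filter fun t => t ≤ ph α ρ m).card := by
        rw [Finset.filter_image, Finset.card_image_of_injOn]
        · rfl
        · intro a ha b hb hab
          have ha' := (Finset.mem_filter.1 (Finset.mem_coe.1 ha)).1
          have hb' := (Finset.mem_filter.1 (Finset.mem_coe.1 hb)).1
          exact hinj (Finset.mem_coe.2 ha') (Finset.mem_coe.2 hb') hab
      rw [h1]
      have h2 : T = Finset.univ.image e := by
        apply Finset.ext
        intro t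
        constructor
        · intro ht
          have : t ∈ Set.range e := by
            rw [Finset.range_orderEmbOfFin]; exact Finset.mem_coe.2 ht
          obtain ⟨j, hj⟩ := this
          exact Finset.mem_image.2 ⟨j, Finset.mem_univ _, hj⟩
        · intro ht
          obtain ⟨j, -, hj⟩ := Finset.mem_image.1 ht
          rw [← hj]
          exact T.orderEmbOfFin_mem hT j
      conv_lhs => rw [h2]
      rw [Finset.filter_image, Finset.card_image_of_injective _ e.injective]
    -- the interval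
    let a : ℝ := if h : 0 < k then e ⟨k - 1, by omega⟩ else 0
    let b : ℝ := if h : k < n then e ⟨k, h⟩ else 1
    have ha0 : 0 ≤ a := by
      simp only [a]; split_ifs with h
      · exact (he _).1.le
      · exact le_rfl
    have hb1 : b ≤ 1 := by
      simp only [b]; split_ifs with h
      · exact (he _).2.le
      · exact le_rfl
    have hab : a < b := by
      simp only [a, b]
      split_ifs with h h' h'
      · apply e.strictMono
        rw [Fin.lt_def]; simp only; omega
      · exact (he _).2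
      · exact (he _).1
      · exact one_pos
    obtain ⟨m, hm1, hm2⟩ := dense_orbit hα ρ ha0 hab hb1
    refine ⟨m, ?_⟩
    rw [hcard m]
    have : (Finset.univ.filter fun j : Fin n => e j ≤ ph α ρ m) =
        Finset.univ.filter fun j : Fin n => j.1 < k := by
      ext j
      simp only [Finset.mem_filter, Finset.mem_univ, true_and]
      constructor
      · intro hj
        by_contra hlt
        push Not at hlt
        have hkn : k < n := lt_of_le_of_lt hlt j.2
        have hb : b = e ⟨k, hkn⟩ := by simp only [b, dif_pos hkn]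
        have : e ⟨k, hkn⟩ ≤ e j := e.monotone (by rw [Fin.le_def]; exact hlt)
        have hm2' : ph α ρ m < b := hm2
        linarith
      · intro hj
        have hk0 : 0 < k := by omega
        have ha : a = e ⟨k - 1, by omega⟩ := by simp only [a, dif_pos hk0]
        have : e j ≤ e ⟨k - 1, by omega⟩ := e.monotone (by rw [Fin.le_def]; simp only; omega)
        have hm1' : a < ph α ρ m := hm1
        linarith
    rw [this]
    rw [Fin.card_filter_val_lt]
    omega

theorem mech_sturmian {α : ℝ} (h0 : 0 < α) (h1 : α < 1) (hα : Irrational α) (ρ : ℝ) :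
    Sturmian (mech α ρ) := by
  refine ⟨mech_le_one h0 h1, fun n => ?_⟩
  rw [ncard_range_eq (fun i => factor (mech α ρ) i n) (fun m => (thr α ρ n m).card)
    (fun m m' => (factor_iff_thr h0 m m' n).trans (thr_iff_card m m' n)), range_card hα]
  rw [← Finset.coe_Iic, Set.ncard_coe_finset]
  simp

/-! ### The counterexample -/

/-- The palindromic factors of `w`, as a finite set. -/
def pals (w : List ℕ) : Finset (List ℕ) :=
  ((w.tails.flatMap List.inits).filter fun v => v.reverse = v).toFinset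

theorem coe_pals (w : List ℕ) : (pals w : Set (List ℕ)) = {v | v <:+: w ∧ v.reverse = v} := by
  ext v
  simp only [pals, List.coe_toFinset, List.mem_filter, List.mem_flatMap, List.mem_tails,
    List.mem_inits, decide_eq_true_eq, Set.mem_ofPred_eq]
  constructor
  · rintro ⟨⟨t, ht, hv⟩, h⟩
    exact ⟨hv.isInfix.trans ht.isInfix, h⟩
  · rintro ⟨⟨a, c, h⟩, h'⟩
    refine ⟨⟨v ++ c, ⟨a, ?_⟩, List.prefix_append _ _⟩, h'⟩
    rw [← List.append_assoc]; exact h

/-- The word `101100101` has length 9 and only 9 palindromic factors. -/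
theorem not_richWord : ({v : List ℕ | v <:+: [1, 0, 1, 1, 0, 0, 1, 0, 1] ∧ v.reverse = v}).ncard
    = 9 := by
  rw [← coe_pals, Set.ncard_coe_finset]
  decide +kernel

/-- The first 15 letters of the Sturmian word. -/
def w15 : ℕ → ℕ := fun n => [0, 0, 1, 0, 1, 0, 1, 0, 0, 1, 0, 1, 0, 0, 1].getD n 0

theorem S_congr {u v : ℕ → ℕ} {N : ℕ} (h : ∀ j < N + 1, u j = v j) :
    ∀ j < N, S u j = S v j := by
  intro j hj
  unfold S
  rw [h j (by omega), h (j + 1) (by omega)]

theorem S_iter_congr {u v : ℕ → ℕ} (k N : ℕ) (h : ∀ j < N + k, u j = v j) :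
    ∀ j < N, (S^[k] u) j = (S^[k] v) j := by
  induction k generalizing u v with
  | zero => exact h
  | succ k ih =>
    rw [Function.iterate_succ_apply, Function.iterate_succ_apply]
    exact ih (S_congr (N := N + k) h)

theorem lo : (17 : ℝ) / 42 < Real.sqrt 2 - 1 := by
  have : (59 : ℝ) / 42 < Real.sqrt 2 := by
    rw [Real.lt_sqrt (by norm_num)]
    norm_num
  linarith

theorem hi : Real.sqrt 2 - 1 < (5 : ℝ) / 12 := by
  have : Real.sqrt 2 < (17 : ℝ) / 12 := by
    rw [Real.sqrt_lt' (by norm_num)]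
    norm_num
  linarith

theorem fl {α : ℝ} (lo : 17 / 42 < α) (hi : α < 5 / 12) (i : ℕ) (s : ℤ)
    (h1 : (s : ℝ) ≤ i * (17 / 42) + 1 / 6)
    (h2 : (i : ℝ) * (5 / 12) + 1 / 6 ≤ s + 1) (hi0 : 0 < i) :
    ⌊(i : ℝ) * α + 1 / 6⌋ = s := by
  have hi' : (0 : ℝ) < i := by exact_mod_cast hi0
  have e1 := mul_lt_mul_of_pos_left lo hi'
  have e2 := mul_lt_mul_of_pos_left hi hi'
  rw [Int.floor_eq_iff]
  constructor <;> linarith

theorem u0_prefix {α : ℝ} (lo : 17 / 42 < α) (hi : α < 5 / 12) :
    ∀ j < 15, mech α (1 / 6) j = w15 j := by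
  have f0 : ⌊((0 : ℕ) : ℝ) * α + 1 / 6⌋ = 0 := by
    rw [Int.floor_eq_iff]; norm_num
  have f1 := fl lo hi 1 0 (by norm_num) (by norm_num) (by norm_num)
  have f2 := fl lo hi 2 0 (by norm_num) (by norm_num) (by norm_num)
  have f3 := fl lo hi 3 1 (by norm_num) (by norm_num) (by norm_num)
  have f4 := fl lo hi 4 1 (by norm_num) (by norm_num) (by norm_num)
  have f5 := fl lo hi 5 2 (by norm_num) (by norm_num) (by norm_num)
  have f6 := fl lo hi 6 2 (by norm_num) (by norm_num) (by norm_num)
  have f7 := fl lo hi 7 3 (by norm_num) (by norm_num) (by norm_num)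
  have f8 := fl lo hi 8 3 (by norm_num) (by norm_num) (by norm_num)
  have f9 := fl lo hi 9 3 (by norm_num) (by norm_num) (by norm_num)
  have f10 := fl lo hi 10 4 (by norm_num) (by norm_num) (by norm_num)
  have f11 := fl lo hi 11 4 (by norm_num) (by norm_num) (by norm_num)
  have f12 := fl lo hi 12 5 (by norm_num) (by norm_num) (by norm_num)
  have f13 := fl lo hi 13 5 (by norm_num) (by norm_num) (by norm_num)
  have f14 := fl lo hi 14 5 (by norm_num) (by norm_num) (by norm_num)
  have f15 := fl lo hi 15 6 (by norm_num) (by norm_num) (by norm_num)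
  intro j hj
  unfold mech
  interval_cases j
  · rw [f0, f1]; rfl
  · rw [f1, f2]; rfl
  · rw [f2, f3]; rfl
  · rw [f3, f4]; rfl
  · rw [f4, f5]; rfl
  · rw [f5, f6]; rfl
  · rw [f6, f7]; rfl
  · rw [f7, f8]; rfl
  · rw [f8, f9]; rfl
  · rw [f9, f10]; rfl
  · rw [f10, f11]; rfl
  · rw [f11, f12]; rfl
  · rw [f12, f13]; rfl
  · rw [f13, f14]; rfl
  · rw [f14, f15]; rfl

theorem factor_u0 {α : ℝ} (lo : 17 / 42 < α) (hi : α < 5 / 12) :
    factor (S^[6] (mech α (1 / 6))) 0 9 = [1, 0, 1, 1, 0, 0, 1, 0, 1] := by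
  have h := S_iter_congr 6 9 (u0_prefix lo hi)
  have : factor (S^[6] (mech α (1 / 6))) 0 9 = factor (S^[6] w15) 0 9 := by
    unfold factor
    apply List.map_congr_left
    intro j hj
    rw [Nat.zero_add]
    exact h j (List.mem_range.1 hj)
  rw [this]
  decide +kernel

theorem not_rich {α : ℝ} (lo : 17 / 42 < α) (hi : α < 5 / 12) :
    ¬ Rich (S^[6] (mech α (1 / 6))) := by
  intro h
  have := h 0 9
  rw [factor_u0 lo hi] at this
  unfold RichWord at this
  rw [not_richWord] at this
  exact absurd this (by decide)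

/-- **Negative answer to Q1 of MP_9b64ae.**  For every irrational slope `α` with
`17/42 < α < 5/12` the word `n ↦ ⌊(n+1)α + 1/6⌋ - ⌊nα + 1/6⌋` is Sturmian, but `S^6(u)` is not
rich: its prefix `101100101` of length 9 has only 9 palindromic factors.  In particular there is
a Sturmian word `u` (of slope `√2 - 1`) such that `S^6(u)` is not rich. -/
theorem result :
    (∀ α : ℝ, Irrational α → 17 / 42 < α → α < 5 / 12 →
      Sturmian (mech α (1 / 6)) ∧ ¬ Rich (S^[6] (mech α (1 / 6)))) ∧
    ∃ u : ℕ → ℕ, Sturmian u ∧ ¬ Rich (S^[6] u) := by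
  have h1 : ∀ α : ℝ, Irrational α → 17 / 42 < α → α < 5 / 12 →
      Sturmian (mech α (1 / 6)) ∧ ¬ Rich (S^[6] (mech α (1 / 6))) := fun α hα h1 h2 =>
    ⟨mech_sturmian (by linarith) (by linarith) hα _, not_rich h1 h2⟩
  exact ⟨h1, _, h1 (Real.sqrt 2 - 1) (by exact_mod_cast irrational_sqrt_two.sub_intCast 1) lo hi⟩

end Pool.Agent.Results.MP_9b64ae_co.NotRich
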